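import Mathlib
import Pool.Agent.CarU.Sigma
import Pool.Agent.CarU.Homeo

/-!
# Carpets in spaces carrying a natural uniform algebra with a piecewise injective element

`X` is a compact Hausdorff space and `A` a nontrivial natural uniform algebra on `X` which
contains a function `f` with countable fibres such that `X` is covered by countably many closed
sets on each of which `f` is injective or has an image of area zero. Then `X` contains a
Sierpinski carpet. For `X` in the plane, `A = R(X)` and `f = z`: `R(X) ≠ C(X)` implies that `X` contains a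
Sierpinski carpet.
-/

open Set MeasureTheory

namespace Pool.Agent.Results.MP_efd072_an.CarpetFromInjective

theorem result (X : Type) [TopologicalSpace X] [CompactSpace X] [T2Space X]
    (A : Subalgebra ℂ C(X, ℂ)) (hclosed : IsClosed (A : Set C(X, ℂ)))
    (hsep : ∀ x y : X, x ≠ y → ∃ f ∈ A, f x ≠ f y) (hne : A ≠ ⊤)
    (hnat : ∀ φ : A →ₐ[ℂ] ℂ, ∃ x : X, ∀ f : A, φ f = (f : C(X, ℂ)) x)
    (f : C(X, ℂ)) (hf : f ∈ A) (hfib : ∀ t : ℂ, {x | f x = t}.Countable)
    (C : ℕ → Set X) (hC : ∀ i, IsClosed (C i)) (hcov : ⋃ i, C i = univ)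
    (hCi : ∀ i, InjOn f (C i) ∨ volume (f '' C i) = 0) :
    ∃ S : Set X, Nonempty (S ≃ₜ
      {p : ℝ × ℝ | p.1 ∈ Set.Icc (0:ℝ) 1 ∧ p.2 ∈ Set.Icc (0:ℝ) 1 ∧
        ∀ n a b : ℕ, p ∉
          Set.Ioo ((3 * (a:ℝ) + 1) / 3 ^ (n + 1)) ((3 * (a:ℝ) + 2) / 3 ^ (n + 1)) ×ˢ
          Set.Ioo ((3 * (b:ℝ) + 1) / 3 ^ (n + 1)) ((3 * (b:ℝ) + 2) / 3 ^ (n + 1))}) := by
  obtain ⟨i, hi⟩ := CarU.sigma_thm A hclosed hne hnat hsep f hf hfib C hC hcov hCi
  obtain ⟨S, -, hS⟩ := CarU.homeo_of_hasCarpet hi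
  exact ⟨S, hS⟩

end Pool.Agent.Results.MP_efd072_an.CarpetFromInjective
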