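import Mathlib
import Pool.Agent.CarU.Struct
import Pool.Agent.CarU.Homeo

/-!
# Every nontrivial natural uniform algebra: carpets in the images of its elements
-/

open Set MeasureTheory

namespace Pool.Agent.Results.MP_efd072_an.CarpetsInImages

theorem result (X : Type) [TopologicalSpace X] [CompactSpace X] [T2Space X]
    (A : Subalgebra ℂ C(X, ℂ)) (hclosed : IsClosed (A : Set C(X, ℂ))) (hne : A ≠ ⊤)
    (hnat : ∀ φ : A →ₐ[ℂ] ℂ, ∃ x : X, ∀ f : A, φ f = (f : C(X, ℂ)) x) :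
    ∃ K : Set X, IsClosed K ∧ K.Nontrivial ∧
      ∀ f ∈ A, (∃ x ∈ K, ∃ y ∈ K, f x ≠ f y) →
        ∀ U : Set ℂ, IsOpen U → (f '' K ∩ U).Nonempty →
          ∀ Z : ℕ → Set ℂ, (∀ i, IsCompact (Z i)) → f '' K ∩ U ⊆ ⋃ i, Z i →
            ∃ i, volume (f '' K ∩ U ∩ Z i) ≠ 0 ∧ ∃ S ⊆ f '' K ∩ U ∩ Z i, Nonempty (S ≃ₜ
              {p : ℝ × ℝ | p.1 ∈ Set.Icc (0:ℝ) 1 ∧ p.2 ∈ Set.Icc (0:ℝ) 1 ∧
                ∀ n a b : ℕ, p ∉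
                  Set.Ioo ((3 * (a:ℝ) + 1) / 3 ^ (n + 1)) ((3 * (a:ℝ) + 2) / 3 ^ (n + 1)) ×ˢ
                  Set.Ioo ((3 * (b:ℝ) + 1) / 3 ^ (n + 1)) ((3 * (b:ℝ) + 2) / 3 ^ (n + 1))}) := by
  obtain ⟨K, h1, h2, h3⟩ := CarU.structure_thm A hclosed hne hnat
  refine ⟨K, h1, h2, fun f hf hfn U hU hUn Z hZ hcov => ?_⟩
  obtain ⟨i, hi, hcar⟩ := h3 f hf hfn U hU hUn Z hZ hcov
  exact ⟨i, hi, CarU.homeo_of_hasCarpet hcar⟩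

end Pool.Agent.Results.MP_efd072_an.CarpetsInImages
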